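import Pool.Agent.N71.PS.DW
import Pool.Agent.N456.PS.RB
import Pool.Agent.N759.PS.SW
import Pool.Agent.N999.PS.Half
import Pool.Agent.N999.PS.AP
import Pool.Agent.N368.PS.Sharp
import Pool.Agent.N427.PS.Dens

/-!
# Class groups of real quadratic fields are generated by the small primes of an arbitrary set

Let `P` be ANY set of primes that contains a positive proportion of the primes of `(y, 2y]` for all large
`y`.  For all `a > 2` and `ε > 0` the following holds for 100% of the integers `d` that can have unique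
factorisation (`d` prime, or `2 p`, or `p q` with `p, q ≡ 3 mod 4`); `K` is the field of the square root
of `d`.

* For suitable `y` and `k` with `2 y ≤ (log d)^a` and `2 k ≤ log d / log log d`, the ideals of `K` whose
  norm is a product of `k` distinct primes of `P` in `(y, 2y]` are equidistributed in the ideal class
  group of `K`, in mean square, up to the relative error `ε`.
* Every ideal class is a product of at most `log d / log log d` classes of prime ideals whose norm is a
  prime number of `P` and at most `(log d)^a`.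
* The ring of integers of `K` is a unique factorisation domain if and only if all its prime ideals whose
  norm is a prime number of `P` and at most `(log d)^a` are principal.

The same holds for 100% of all squarefree integers `d`, unless `P` is obstructed by genus theory: it
holds if no real nonprincipal Dirichlet character modulo a divisor of the discriminant is almost constant
on `P`.  In particular it holds for 100% of the squarefree `d` if `P` contains more than half of the
primes, and for the primes `P` of an arithmetic progression modulo `m` it holds for 100% of the squarefree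
`d` whose discriminant is coprime to `m`.

The bound `1/2` is optimal and the obstructions are real: the primes `±1 mod 5` are half of the primes,
and for no squarefree `d` divisible by `10` the class group is generated by prime ideals whose norm is
such a prime number.
-/

set_option autoImplicit false

namespace Pool.Agent.Results.MP_321647_nt.ArbitrarySetsOfPrimes

open Filter Finset NumberField
open scoped Classical

/-- The prime numbers of the set `P` in the interval `(y, 2y]`. -/
noncomputable def primesIn (P : Set ℕ) (y : ℕ) : Finset ℕ :=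
  (Finset.Ioc y (2 * y)).filter (fun p => p.Prime ∧ p ∈ P)

/-- `P` contains, for all large `y`, at least the proportion `δ` of the primes of `(y, 2y]`. -/
def Proportion (P : Set ℕ) (δ : ℝ) : Prop :=
  ∃ y0 : ℕ, ∀ y ≥ y0, δ * (primesIn Set.univ y).card ≤ (primesIn P y).card

/-- The discriminant of the field of the square root of the squarefree integer `d`. -/
def disc (d : ℕ) : ℕ := if d % 4 = 1 then d else 4 * d

/-- No real nonprincipal Dirichlet character modulo a divisor of the discriminant is almost constant on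
the primes of `P` in `(y, 2y]`. -/
def Unobstructed (P : Set ℕ) (d : ℕ) : Prop :=
  ∀ (q : ℕ) (χ : DirichletCharacter ℂ q), 1 ≤ q → q ∣ disc d → χ ^ 2 = 1 → χ ≠ 1 →
    ∃ β : ℝ, β < 1 ∧ ∃ y0 : ℕ,
      ∀ y ≥ y0, ‖∑ p ∈ primesIn P y, χ (p : ZMod q)‖ ≤ β * (primesIn P y).card

/-- The number of the ideals of the ring of integers of `K` that have the class `C` and whose norm is a
product of `k` distinct primes of `P` in the interval `(y, 2y]`. -/
noncomputable def cnt (P : Set ℕ) (K : Type) [Field K] [NumberField K] (y k : ℕ)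
    (C : ClassGroup (𝓞 K)) : ℕ :=
  ∑ s ∈ (primesIn P y).powersetCard k, Nat.card {I : nonZeroDivisors (Ideal (𝓞 K)) //
    Ideal.absNorm (I : Ideal (𝓞 K)) = ∏ p ∈ s, p ∧ ClassGroup.mk0 I = C}

/-- There are such ideals, and the mean square deviation of their distribution among the `h` ideal
classes from the uniform distribution is at most `ε (1 / h) ^ 2`. -/
def Equidistributed (P : Set ℕ) (K : Type) [Field K] [NumberField K] (y k : ℕ) (ε : ℝ) : Prop :=
  0 < ∑ C : ClassGroup (𝓞 K), cnt P K y k C ∧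
  (∑ C : ClassGroup (𝓞 K), ((cnt P K y k C : ℝ) /
    ((∑ C' : ClassGroup (𝓞 K), cnt P K y k C' : ℕ) : ℝ) -
    1 / Nat.card (ClassGroup (𝓞 K))) ^ 2) / Nat.card (ClassGroup (𝓞 K)) ≤
      ε * (1 / Nat.card (ClassGroup (𝓞 K))) ^ 2

/-- Every ideal class is a product of at most `n` classes of prime ideals whose norm is a prime number
of `P` and at most `B`. -/
def ShortProducts (P : Set ℕ) (K : Type) [Field K] [NumberField K] (B n : ℝ) : Prop :=
  ∀ C : ClassGroup (𝓞 K), ∃ L : Multiset (nonZeroDivisors (Ideal (𝓞 K))),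
    (∀ 𝔭 ∈ L, (𝔭 : Ideal (𝓞 K)).IsPrime ∧ (Ideal.absNorm (𝔭 : Ideal (𝓞 K))).Prime ∧
      Ideal.absNorm (𝔭 : Ideal (𝓞 K)) ∈ P ∧ (Ideal.absNorm (𝔭 : Ideal (𝓞 K)) : ℝ) ≤ B) ∧
    (L.card : ℝ) ≤ n ∧ (L.map (fun 𝔭 => ClassGroup.mk0 𝔭)).prod = C

/-- The ring of integers of `K` has unique factorisation if and only if its prime ideals whose norm is
a prime number of `P` and at most `B` are principal. -/
def DecidedBelow (P : Set ℕ) (K : Type) [Field K] [NumberField K] (B : ℝ) : Prop :=
  UniqueFactorizationMonoid (𝓞 K) ↔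
    ∀ 𝔭 : Ideal (𝓞 K), 𝔭.IsPrime → (Ideal.absNorm 𝔭).Prime → Ideal.absNorm 𝔭 ∈ P →
      (Ideal.absNorm 𝔭 : ℝ) ≤ B → 𝔭.IsPrincipal

/-- The property of the integer `d` in the theorem: all three statements hold for every quadratic
field containing a square root of `d`. -/
def Good (P : Set ℕ) (a ε : ℝ) (d : ℕ) : Prop :=
  ∀ (K : Type) [Field K] [NumberField K], Module.finrank ℚ K = 2 →
    (∃ x : K, x ^ 2 = (d : K)) →
    (∃ y k : ℕ, 2 * (y : ℝ) ≤ (Real.log d) ^ a ∧
      2 * (k : ℝ) ≤ Real.log d / Real.log (Real.log d) ∧ Equidistributed P K y k ε) ∧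
    ShortProducts P K ((Real.log d) ^ a) (Real.log d / Real.log (Real.log d)) ∧
    DecidedBelow P K ((Real.log d) ^ a)

/-- `d` is a prime, or twice a prime `≡ 3 mod 4`, or a product of two primes `≡ 3 mod 4`. -/
def Candidate (d : ℕ) : Prop := d.Prime ∨ (∃ p : ℕ, p.Prime ∧ p % 4 = 3 ∧ d = 2 * p) ∨
  ∃ p q : ℕ, p.Prime ∧ q.Prime ∧ p < q ∧ p % 4 = 3 ∧ q % 4 = 3 ∧ d = p * q

/-- The proportion of the numbers up to `X` with the property `F` that do not have the property `G`
tends to zero as `X` tends to infinity. -/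
def AlmostAll (F G : ℕ → Prop) : Prop :=
  Tendsto (fun X : ℕ => (((Finset.Icc 1 X).filter (fun d => F d ∧ ¬ G d)).card : ℝ) /
    (((Finset.Icc 1 X).filter F).card : ℝ)) atTop (nhds 0)

theorem decided (P : Set ℕ) (K : Type) [Field K] [NumberField K] (B n : ℝ)
    (h : ShortProducts P K B n) : DecidedBelow P K B := by
  constructor
  · intro hU 𝔭 _ _ _ _
    have := hU
    have : IsPrincipalIdealRing (𝓞 K) :=
      IsPrincipalIdealRing.of_isDedekindDomain_of_uniqueFactorizationMonoid (𝓞 K)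
    exact IsPrincipalIdealRing.principal 𝔭
  · intro hP
    have htriv : ∀ C : ClassGroup (𝓞 K), C = 1 := by
      intro C
      obtain ⟨L, hL, _, hprod⟩ := h C
      rw [← hprod]
      apply Multiset.prod_eq_one
      intro c hc
      obtain ⟨𝔭, hPL, rfl⟩ := Multiset.mem_map.1 hc
      rw [ClassGroup.mk0_eq_one_iff]
      obtain ⟨h1, h2, h3, h4⟩ := hL 𝔭 hPL
      exact hP _ h1 h2 h3 h4
    have hcard : Fintype.card (ClassGroup (𝓞 K)) = 1 := by
      rw [Fintype.card_eq_one_iff]
      exact ⟨1, htriv⟩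
    have : IsPrincipalIdealRing (𝓞 K) := by
      rw [← card_classGroup_eq_one_iff]
      exact hcard
    infer_instance

theorem good_iff (P : Set ℕ) (a ε : ℝ) (d : ℕ) :
    Pool.Agent.N71.PS.GoodE P a ε d ↔ Good P a ε d := by
  constructor
  · intro h3 K _ _ hK hx
    obtain ⟨h4, h5⟩ := h3 K hK hx
    exact ⟨h4, h5, decided P K _ _ h5⟩
  · intro h3 K _ _ hK hx
    exact ⟨(h3 K hK hx).1, (h3 K hK hx).2.1⟩

theorem almost (P : Set ℕ) (F : ℕ → Prop) (a ε : ℝ)
    (h : Tendsto (fun X : ℕ => (((Finset.Ioc 0 X).filter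
      (fun D => F D ∧ ¬ Pool.Agent.N71.PS.GoodE P a ε D)).card : ℝ) /
      (((Finset.Ioc 0 X).filter F).card : ℝ)) atTop (nhds 0)) : AlmostAll F (Good P a ε) := by
  unfold AlmostAll
  refine h.congr (fun X => ?_)
  have e1 : Finset.Ioc 0 X = Finset.Icc 1 X := by
    ext d
    rw [mem_Ioc, mem_Icc]
    omega
  have e2 : (Finset.Ioc 0 X).filter (fun D => F D ∧ ¬ Pool.Agent.N71.PS.GoodE P a ε D) =
      (Finset.Ioc 0 X).filter (fun d => F d ∧ ¬ Good P a ε d) := by
    apply filter_congr
    intro d _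
    rw [good_iff]
  rw [e2, e1]

theorem card_univ' (y : ℕ) :
    (primesIn Set.univ y).card = (Pool.Agent.H38R2.CG.PP y).card := by
  apply congrArg Finset.card
  ext p
  simp [primesIn, Pool.Agent.H38R2.CG.PP]

theorem low_of_proportion (P : Set ℕ) (δ : ℝ) (hδ : 0 < δ) (h : Proportion P δ) :
    ∃ δ' : ℝ, 0 < δ' ∧ ∃ y0 : ℕ, ∀ y ≥ y0, δ' * y / Real.log y ≤ (primesIn P y).card := by
  obtain ⟨y1, h1⟩ := h
  obtain ⟨-, y2, h2⟩ := Pool.Agent.H38R2.CG.T_NB
  refine ⟨δ * (9 / 10), by positivity, max y1 y2, fun y hy => ?_⟩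
  have h3 := h1 y ((le_max_left _ _).trans hy)
  have h4 := (h2 y ((le_max_right _ _).trans hy)).1
  rw [card_univ'] at h3
  calc δ * (9 / 10) * y / Real.log y = δ * (9 / 10 * y / Real.log y) := by ring
    _ ≤ δ * (Pool.Agent.H38R2.CG.PP y).card := by gcongr
    _ ≤ _ := h3

theorem candidates (P : Set ℕ)
    (hlow : ∃ δ : ℝ, 0 < δ ∧ ∃ y0 : ℕ, ∀ y ≥ y0, δ * y / Real.log y ≤ (primesIn P y).card)
    (a ε : ℝ) (ha : 2 < a) (hε : 0 < ε) : AlmostAll Candidate (Good P a ε) := by
  let inst : Pool.Agent.N71.PS.PSet := ⟨P, hlow⟩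
  apply almost
  have h1 := Pool.Agent.N71.PS.d_cand a ε ha hε
  have e : ∀ d, Candidate d ↔
      (d.Prime ∨ Pool.Agent.Y892.UF.Two d ∨ Pool.Agent.Y892.UF.Semi d) := fun d => Iff.rfl
  refine h1.congr (fun X => ?_)
  congr 2
  · apply congrArg Finset.card
    ext d
    rw [mem_filter, mem_filter, e]
    exact Iff.rfl
  · apply congrArg Finset.card
    ext d
    rw [mem_filter, mem_filter, e]

theorem squarefrees (P : Set ℕ)
    (hlow : ∃ δ : ℝ, 0 < δ ∧ ∃ y0 : ℕ, ∀ y ≥ y0, δ * y / Real.log y ≤ (primesIn P y).card)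
    (a ε : ℝ) (ha : 2 < a) (hε : 0 < ε) :
    AlmostAll Squarefree (fun d => Unobstructed P d → Good P a ε d) := by
  let inst : Pool.Agent.N71.PS.PSet := ⟨P, hlow⟩
  have h1 := Pool.Agent.N71.PS.d_fs (Pool.Agent.N71.PS.Unobs P) (fun a' ha' =>
    ⟨2, fun z hz D hD hF => Pool.Agent.N71.PS.d_sa a' ha' z (D % Pool.Agent.H38R2.CG.Qz z) hz
      (Pool.Agent.H38R2.CG.AS1h.fundRes z D hF)
      (Pool.Agent.N71.PS.RB.D_RB_true z D hz hF hD)⟩) a ε ha hε
  have e : ∀ d, (¬ (Unobstructed P d → Good P a ε d)) ↔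
      (Pool.Agent.N71.PS.Unobs P (Pool.Agent.H38R2.CG.FINh.Dof d) ∧
        ¬ Pool.Agent.N71.PS.GoodE P a ε d) := by
    intro d
    rw [good_iff, Classical.not_imp]
    exact Iff.rfl
  have h2 := Pool.Agent.N71.PS.sqf_tendsto (fun d => ¬ (Unobstructed P d → Good P a ε d)) (by
    simp only [e]
    convert h1
    rfl)
  unfold AlmostAll
  convert h2

theorem mono (F G G' : ℕ → Prop) (h : ∀ d, G d → G' d) (hG : AlmostAll F G) : AlmostAll F G' := by
  unfold AlmostAll at hG ⊢
  refine squeeze_zero (fun X => by positivity) (fun X => ?_) hG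
  apply div_le_div_of_nonneg_right _ (Nat.cast_nonneg _)
  have : ((Finset.Icc 1 X).filter (fun d => F d ∧ ¬ G' d)).card ≤
      ((Finset.Icc 1 X).filter (fun d => F d ∧ ¬ G d)).card := by
    apply card_le_card
    intro d hd
    rw [mem_filter] at hd ⊢
    exact ⟨hd.1, hd.2.1, fun hG => hd.2.2 (h d hG)⟩
  exact_mod_cast this

/-- The primes `±1 mod 5`. -/
def P5 : Set ℕ := {p | p % 5 = 1 ∨ p % 5 = 4}

theorem result :
    (∀ P : Set ℕ, (∃ δ : ℝ, 0 < δ ∧ Proportion P δ) → ∀ a ε : ℝ, 2 < a → 0 < ε →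
      AlmostAll Candidate (Good P a ε) ∧
      AlmostAll Squarefree (fun d => Unobstructed P d → Good P a ε d)) ∧
    (∀ P : Set ℕ, (∃ δ : ℝ, 1 / 2 < δ ∧ Proportion P δ) → ∀ a ε : ℝ, 2 < a → 0 < ε →
      AlmostAll Squarefree (Good P a ε)) ∧
    (∀ m b : ℕ, 1 ≤ m → b.Coprime m → ∀ a ε : ℝ, 2 < a → 0 < ε →
      AlmostAll Squarefree (fun d => (disc d).Coprime m → Good {p | p % m = b % m} a ε d)) ∧
    (∀ δ : ℝ, δ < 1 / 2 → Proportion P5 δ) ∧
    ∀ d : ℕ, Squarefree d → 10 ∣ d → ∀ (K : Type) [Field K] [NumberField K],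
      Module.finrank ℚ K = 2 → (∃ x : K, x ^ 2 = (d : K)) → ∀ B n : ℝ, ¬ ShortProducts P5 K B n := by
  have huniv := card_univ'
  refine ⟨?_, ?_, ?_, ?_, ?_⟩
  · rintro P ⟨δ, hδ, h⟩ a ε ha hε
    have hlow := low_of_proportion P δ hδ h
    exact ⟨candidates P hlow a ε ha hε, squarefrees P hlow a ε ha hε⟩
  · rintro P ⟨δ, hδ, y0, h⟩ a ε ha hε
    obtain ⟨h1, h2⟩ := Pool.Agent.N999.PS.half Pool.Agent.N759.PS.sw P (δ - 1 / 2) (by linarith)
      ⟨y0, fun y hy => by
        have h3 := h y hy
        rw [huniv] at h3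
        have h4 : (1 / 2 + (δ - 1 / 2)) * ((Pool.Agent.H38R2.CG.PP y).card : ℝ) =
          δ * (Pool.Agent.H38R2.CG.PP y).card := by ring
        rw [h4]
        exact h3⟩
    refine mono _ _ _ (fun d hd => hd ?_) (squarefrees P h1 a ε ha hε)
    intro q χ hq _ _ hχ
    exact h2 q χ hq hχ
  · intro m b hm hb a ε ha hε
    obtain ⟨δ, hδ, h1⟩ := Pool.Agent.N71.PS.AP.ap_low Pool.Agent.N759.PS.sw m b hm hb
    obtain ⟨y1, h1⟩ := h1
    have hP : Proportion {p | p % m = b % m} δ := by
      refine ⟨y1, fun y hy => ?_⟩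
      rw [huniv]
      exact h1 y hy
    refine mono _ _ _ (fun d hd hm' => hd ?_)
      (squarefrees _ (low_of_proportion _ δ hδ hP) a ε ha hε)
    intro q χ hq hqd h2 hχ
    exact Pool.Agent.N71.PS.AP.ap_rosc Pool.Agent.N759.PS.sw m b hm hb q χ hq
      (Nat.Coprime.coprime_dvd_left hqd hm') h2 hχ
  · intro δ hδ
    obtain ⟨y0, h⟩ := Pool.Agent.N427.PS.dens Pool.Agent.N759.PS.sw (1 / 2 - δ) (by linarith)
    refine ⟨y0, fun y hy => ?_⟩
    have h1 := h y hy
    rw [huniv]
    have h2 : 1 / 2 - (1 / 2 - δ) = δ := by ring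
    rw [h2] at h1
    exact h1
  · intro d hd h10 K _ _ hK hx B n
    exact Pool.Agent.N368.PS.sharp d hd h10 K hK hx B n

end Pool.Agent.Results.MP_321647_nt.ArbitrarySetsOfPrimes
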