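import Pool.Agent.N863.EP.F3

/-!
# Real quadratic fields with unique factorisation and continued fraction period four

For squarefree `d > 1` let `omega d` be the standard generator of the ring of integers of
`ℚ(√d)`, and let `perLen d` be the length of the period of its simple continued fraction.
Let `d ≡ 1 (mod 4)`, let the ring of integers be a unique factorisation domain, and let
`perLen d = 4`. If some unit `(T + U √d) / 2` has `U` not divisible by
`7676760 = 8 · 3 · 5 · 7 · 13 · 19 · 37`, then `d` is one of thirteen explicit numbers.
-/

namespace Pool.Agent.Results.MP_321647_nt.EvenPeriodFour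

/-- The next complete quotient of the simple continued fraction of a real number. -/
noncomputable def nextQ (x : ℝ) : ℝ := (Int.fract x)⁻¹

/-- The standard generator of the ring of integers of `ℚ(√d)`. -/
noncomputable def omega (d : ℕ) : ℝ := if d % 4 = 1 then (1 + √(d : ℝ)) / 2 else √(d : ℝ)

/-- The period length of the simple continued fraction of `omega d`: the least `l ≥ 1` such that
the complete quotients with indices `l + 1` and `1` agree (and `0` if there were none). -/
noncomputable def perLen (d : ℕ) : ℕ :=
  sInf {l : ℕ | 0 < l ∧ nextQ^[l + 1] (omega d) = nextQ (omega d)}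

theorem result (d : ℕ) (hd : Squarefree d) (hd1 : 1 < d) (hd4 : d % 4 = 1)
    (K : Type*) [Field K] [NumberField K] (hK : Module.finrank ℚ K = 2)
    (x : K) (hx : x ^ 2 = (d : K))
    (hufd : UniqueFactorizationMonoid (NumberField.RingOfIntegers K))
    (hper : perLen d = 4)
    (T U : ℤ) (hTU : T ^ 2 - d * U ^ 2 = 4 ∨ T ^ 2 - d * U ^ 2 = -4) (hU : ¬ 7676760 ∣ U) :
    d ∈ ({33, 69, 133, 141, 213, 413, 573, 717, 1077, 1293, 1397, 1757, 3053} : Finset ℕ) := by
  have hcl : NumberField.classNumber K = 1 := by
    rw [NumberField.classNumber_eq_one_iff]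
    exact IsPrincipalIdealRing.of_isDedekindDomain_of_uniqueFactorizationMonoid _
  have h := Pool.Agent.N863.EP.final_all hd hd1 hd4 hK hx hcl hper hTU hU
  unfold Pool.Agent.N863.EP.Fin13 at h
  simp only [List.mem_cons, List.not_mem_nil, or_false] at h
  simp only [Finset.mem_insert, Finset.mem_singleton]
  exact h

end Pool.Agent.Results.MP_321647_nt.EvenPeriodFour
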