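import Pool.Agent.N911.C2

/-!
# Real quadratic fields with unique factorisation and odd continued fraction period at most five

For squarefree `d > 1` let `omega d` be the standard generator of the ring of integers of
`ℚ(√d)`, and let `perLen d` be the length of the period of its simple continued fraction.
If the ring of integers is a unique factorisation domain and `perLen d` is `1`, `3` or `5`, then
`d` is one of thirty explicit numbers.
-/

namespace Pool.Agent.Results.MP_321647_nt.OddPeriodFive

/-- The next complete quotient of the simple continued fraction of a real number. -/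
noncomputable def nextQ (x : ℝ) : ℝ := (Int.fract x)⁻¹

/-- The standard generator of the ring of integers of `ℚ(√d)`. -/
noncomputable def omega (d : ℕ) : ℝ := if d % 4 = 1 then (1 + √(d : ℝ)) / 2 else √(d : ℝ)

/-- The period length of the simple continued fraction of `omega d`: the least `l ≥ 1` such that
the complete quotients with indices `l + 1` and `1` agree (and `0` if there were none). -/
noncomputable def perLen (d : ℕ) : ℕ :=
  sInf {l : ℕ | 0 < l ∧ nextQ^[l + 1] (omega d) = nextQ (omega d)}

theorem result (d : ℕ) (hd : Squarefree d) (hd1 : 1 < d)
    (K : Type*) [Field K] [NumberField K] (hK : Module.finrank ℚ K = 2)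
    (x : K) (hx : x ^ 2 = (d : K))
    (hufd : UniqueFactorizationMonoid (NumberField.RingOfIntegers K))
    (hodd : Odd (perLen d)) (hle : perLen d ≤ 5) :
    d ∈ ({2, 5, 13, 17, 29, 37, 41, 53, 61, 101, 149, 157, 173, 181, 197, 269, 293, 317, 397,
      461, 557, 677, 773, 941, 1013, 1877, 2477, 2693, 3533, 4253} : Finset ℕ) := by
  have hcl : NumberField.classNumber K = 1 := by
    rw [NumberField.classNumber_eq_one_iff]
    exact IsPrincipalIdealRing.of_isDedekindDomain_of_uniqueFactorizationMonoid _
  have h := Pool.Agent.N911.classification hd hd1 hK hx hcl hodd hle
  rcases h with rfl | h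
  · simp
  · unfold Pool.Agent.N911.Fin29 at h
    simp only [List.mem_cons, List.not_mem_nil, or_false] at h
    simp only [Finset.mem_insert, Finset.mem_singleton]
    exact Or.inr h

end Pool.Agent.Results.MP_321647_nt.OddPeriodFive
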