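import Pool.Agent.N911.V13

/-!
# Unique factorisation and real quadratic fields with a small unit

Let `d > 1` be squarefree, `D` the discriminant of `ℚ(√d)`, and suppose that the ring of integers
is a unique factorisation domain. If `T ^ 2 - D * U ^ 2 = 4` has a solution with
`1 ≤ U ≤ 1000`, or `T ^ 2 - D * U ^ 2 = -4` one with `1 ≤ U ≤ 10000`, then `d` is one of 142
explicit numbers. In particular this holds if there is a unit `ε` with `1 < ε ≤ 1000 √D`.

The cycles of even length (relation, split primes) use `Pool/Agent/N156/EP` by helper156.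
-/

namespace Pool.Agent.Results.MP_321647_nt.SmallUnits

theorem result (d : ℕ) (hd : Squarefree d) (hd1 : 1 < d)
    (K : Type*) [Field K] [NumberField K] (hK : Module.finrank ℚ K = 2)
    (x : K) (hx : x ^ 2 = (d : K))
    (hufd : UniqueFactorizationMonoid (NumberField.RingOfIntegers K))
    (D : ℕ) (hD : D = if d % 4 = 1 then d else 4 * d)
    (T U : ℕ) (hU : 0 < U)
    (h : T ^ 2 = D * U ^ 2 + 4 ∧ U ≤ 1000 ∨ T ^ 2 + 4 = D * U ^ 2 ∧ U ≤ 10000) :
    d ∈ ([2, 3, 5, 6, 7, 11, 13, 14, 17, 19, 21, 22, 23, 29, 31, 33, 37, 38, 41, 43, 47, 53, 57, 59,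
      61, 62, 69, 71, 73, 77, 83, 89, 93, 97, 101, 107, 109, 113, 131, 133, 137, 141, 149,
      157, 158, 167, 173, 181, 197, 213, 227, 233, 237, 253, 269, 277, 278, 293, 309, 317,
      341, 349, 353, 373, 381, 383, 389, 397, 398, 413, 437, 453, 461, 509, 517, 557, 573,
      581, 597, 613, 653, 677, 701, 717, 749, 773, 797, 813, 821, 853, 893, 917, 941, 997,
      1013, 1061, 1077, 1109, 1133, 1181, 1253, 1277, 1293, 1349, 1397, 1493, 1613, 1637,
      1733, 1757, 1877, 1893, 1949, 1973, 1997, 2309, 2333, 2357, 2453, 2477, 2573, 2621,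
      2693, 2757, 2789, 2957, 3053, 3317, 3533, 3677, 3797, 3989, 4133, 4157, 4253, 4373,
      4517, 4973, 5309, 7013, 9173, 10853] : List ℕ) := by
  have hcl : NumberField.classNumber K = 1 := by
    rw [NumberField.classNumber_eq_one_iff]
    exact IsPrincipalIdealRing.of_isDedekindDomain_of_uniqueFactorizationMonoid _
  have h := Pool.Agent.N911.two_signs hd hd1 hD hK hx hcl hU h
  have e78 : ∀ a ∈ Pool.Agent.N911.List78, a ∈ ([2, 3, 5, 6, 7, 11, 13, 14, 17, 19, 21, 22, 23, 29, 31, 33, 37, 38, 41, 43, 47, 53, 57, 59,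
      61, 62, 69, 71, 73, 77, 83, 89, 93, 97, 101, 107, 109, 113, 131, 133, 137, 141, 149,
      157, 158, 167, 173, 181, 197, 213, 227, 233, 237, 253, 269, 277, 278, 293, 309, 317,
      341, 349, 353, 373, 381, 383, 389, 397, 398, 413, 437, 453, 461, 509, 517, 557, 573,
      581, 597, 613, 653, 677, 701, 717, 749, 773, 797, 813, 821, 853, 893, 917, 941, 997,
      1013, 1061, 1077, 1109, 1133, 1181, 1253, 1277, 1293, 1349, 1397, 1493, 1613, 1637,
      1733, 1757, 1877, 1893, 1949, 1973, 1997, 2309, 2333, 2357, 2453, 2477, 2573, 2621,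
      2693, 2757, 2789, 2957, 3053, 3317, 3533, 3677, 3797, 3989, 4133, 4157, 4253, 4373,
      4517, 4973, 5309, 7013, 9173, 10853] : List ℕ) := by
    decide +kernel
  have e63 : ∀ a ∈ Pool.Agent.N911.List63, a ∈ ([2, 3, 5, 6, 7, 11, 13, 14, 17, 19, 21, 22, 23, 29, 31, 33, 37, 38, 41, 43, 47, 53, 57, 59,
      61, 62, 69, 71, 73, 77, 83, 89, 93, 97, 101, 107, 109, 113, 131, 133, 137, 141, 149,
      157, 158, 167, 173, 181, 197, 213, 227, 233, 237, 253, 269, 277, 278, 293, 309, 317,
      341, 349, 353, 373, 381, 383, 389, 397, 398, 413, 437, 453, 461, 509, 517, 557, 573,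
      581, 597, 613, 653, 677, 701, 717, 749, 773, 797, 813, 821, 853, 893, 917, 941, 997,
      1013, 1061, 1077, 1109, 1133, 1181, 1253, 1277, 1293, 1349, 1397, 1493, 1613, 1637,
      1733, 1757, 1877, 1893, 1949, 1973, 1997, 2309, 2333, 2357, 2453, 2477, 2573, 2621,
      2693, 2757, 2789, 2957, 3053, 3317, 3533, 3677, 3797, 3989, 4133, 4157, 4253, 4373,
      4517, 4973, 5309, 7013, 9173, 10853] : List ℕ) := by
    decide +kernel
  rcases h with rfl | h | h
  · simp
  · exact e78 d h
  · exact e63 d h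

end Pool.Agent.Results.MP_321647_nt.SmallUnits
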